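import Pool.Agent.Y501.SY.Stm

/-! Calculus of the forms `f dg` and `df ∧ dg` on a manifold. -/

set_option autoImplicit false

open Set Filter Topology
open scoped Manifold ContDiff

noncomputable section

namespace Pool.Agent.Y484.SY

open Pool.Agent.Y501.SY

theorem two_le : minSmoothness ℝ 2 ≤ (∞ : WithTop ℕ∞) := by
  rw [minSmoothness_of_isRCLikeNormedField]
  exact WithTop.coe_le_coe.2 le_top

section lin

variable {V W : Type} [NormedAddCommGroup V] [NormedSpace ℝ V] [NormedAddCommGroup W]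
  [NormedSpace ℝ W]

theorem smooth_one {U : Set W} {a : W → V →L[ℝ] ℝ} (ha : ContDiffOn ℝ ∞ a U) :
    ContDiffOn ℝ ∞ (fun p => one (a p)) U :=
  (ContinuousAlternatingMap.ofSubsingletonLIE (𝕜 := ℝ) (E := V) (F := ℝ)
    (0 : Fin 1)).contDiff.comp_contDiffOn ha

theorem smooth_wedge {U : Set W} {a b : W → V →L[ℝ] ℝ} (ha : ContDiffOn ℝ ∞ a U)
    (hb : ContDiffOn ℝ ∞ b U) : ContDiffOn ℝ ∞ (fun p => wedge (a p) (b p)) U := by
  have h1 : ContDiffOn ℝ ∞ (fun p => (a p).smulRight (one (b p))) U :=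
    ha.smulRight (smooth_one hb)
  exact (ContinuousAlternatingMap.alternatizeUncurryFinCLM ℝ V ℝ).contDiff.comp_contDiffOn h1

/-- the exterior derivative of `F dG` -/
theorem ext_one {U : Set V} (hU : IsOpen U) {F G : V → ℝ} (hF : ContDiffOn ℝ ∞ F U)
    (hG : ContDiffOn ℝ ∞ G U) {p : V} (hp : p ∈ U) :
    extDeriv (fun p => F p • one (fderiv ℝ G p)) p = wedge (fderiv ℝ F p) (fderiv ℝ G p) := by
  have hG1 : ContDiffOn ℝ ∞ (fun p => fderiv ℝ G p) U := hG.fderiv_of_isOpen hU (by simp)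
  have hd1 : DifferentiableAt ℝ F p :=
    (hF.contDiffAt (hU.mem_nhds hp)).differentiableAt (by simp)
  have hd2 : DifferentiableAt ℝ (fun p => one (fderiv ℝ G p)) p :=
    ((smooth_one hG1).contDiffAt (hU.mem_nhds hp)).differentiableAt (by simp)
  have h0 : extDeriv (fun p => one (fderiv ℝ G p)) p = 0 := by
    have h1 : (fun p => one (fderiv ℝ G p)) =
        extDeriv (fun x => ContinuousAlternatingMap.constOfIsEmpty ℝ V (Fin 0) (G x)) := by
      ext1 x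
      rw [extDeriv_constOfIsEmpty]
      rfl
    rw [h1]
    refine extDeriv_extDeriv_apply (r := ∞) ?_ two_le
    exact ((ContinuousAlternatingMap.constOfIsEmptyLIE ℝ V ℝ (Fin 0)).contDiff.comp_contDiffOn
      hG).contDiffAt (hU.mem_nhds hp)
  unfold extDeriv at h0 ⊢
  rw [fderiv_fun_smul hd1 hd2, ContinuousAlternatingMap.alternatizeUncurryFin_add,
    ContinuousAlternatingMap.alternatizeUncurryFin_smul, h0, smul_zero, zero_add]
  rfl

end lin

variable {d : ℕ} {X : Type} [TopologicalSpace X] [ChartedSpace (E d) X]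
  [IsManifold (𝓡 d) ∞ X]

theorem comp_smooth {U : Set (E d)} {φ : E d → X} (hφ : ContMDiffOn (𝓡 d) (𝓡 d) ∞ φ U)
    {f : X → ℝ} (hf : SmoothFun (d := d) f) : ContDiffOn ℝ ∞ (f ∘ φ) U :=
  contMDiffOn_iff_contDiffOn.1 (hf.comp_contMDiffOn hφ)

theorem dd_comp {U : Set (E d)} (hU : IsOpen U) {φ : E d → X}
    (hφ : ContMDiffOn (𝓡 d) (𝓡 d) ∞ φ U) {f : X → ℝ} (hf : SmoothFun (d := d) f) {p : E d}
    (hp : p ∈ U) (v : E d) :
    dd (d := d) f (φ p) (mfderiv (𝓡 d) (𝓡 d) φ p v) = fderiv ℝ (f ∘ φ) p v := by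
  have h1 : MDifferentiableAt (𝓡 d) (𝓡 d) φ p :=
    (hφ.contMDiffAt (hU.mem_nhds hp)).mdifferentiableAt (by simp)
  have h2 : MDifferentiableAt (𝓡 d) 𝓘(ℝ, ℝ) f (φ p) := (hf (φ p)).mdifferentiableAt (by simp)
  have h3 := mfderiv_comp p h2 h1
  rw [mfderiv_eq_fderiv] at h3
  rw [h3]
  rfl

theorem pb_fdg {U : Set (E d)} (hU : IsOpen U) {φ : E d → X}
    (hφ : ContMDiffOn (𝓡 d) (𝓡 d) ∞ φ U) {f g : X → ℝ} (hg : SmoothFun (d := d) g) {p : E d}
    (hp : p ∈ U) : pb φ (fdg (d := d) f g) p = (f ∘ φ) p • one (fderiv ℝ (g ∘ φ) p) := by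
  ext v
  have := dd_comp hU hφ hg hp (v 0)
  exact congrArg (fun t => f (φ p) * t) this

theorem pb_dfdg {U : Set (E d)} (hU : IsOpen U) {φ : E d → X}
    (hφ : ContMDiffOn (𝓡 d) (𝓡 d) ∞ φ U) {f g : X → ℝ} (hf : SmoothFun (d := d) f)
    (hg : SmoothFun (d := d) g) {p : E d} (hp : p ∈ U) :
    pb φ (dfdg (d := d) f g) p = wedge (fderiv ℝ (f ∘ φ) p) (fderiv ℝ (g ∘ φ) p) := by
  ext v
  rw [wedge_apply, ← dd_comp hU hφ hf hp, ← dd_comp hU hφ hf hp, ← dd_comp hU hφ hg hp,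
    ← dd_comp hU hφ hg hp]
  exact wedge_apply (V := E d) (dd f (φ p)) (dd g (φ p)) (fun i => mfderiv (𝓡 d) (𝓡 d) φ p (v i))

theorem pb_hdfdg {U : Set (E d)} (hU : IsOpen U) {φ : E d → X}
    (hφ : ContMDiffOn (𝓡 d) (𝓡 d) ∞ φ U) {h f g : X → ℝ} (hf : SmoothFun (d := d) f)
    (hg : SmoothFun (d := d) g) {p : E d} (hp : p ∈ U) :
    pb φ (hdfdg (d := d) h f g) p =
      (h ∘ φ) p • wedge (fderiv ℝ (f ∘ φ) p) (fderiv ℝ (g ∘ φ) p) := by
  rw [← pb_dfdg hU hφ hf hg hp]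
  rfl

/-- calculus of `f dg` -/
theorem t_GEN : S_GEN := by
  intro d X _ _ _ h f g hh hf hg
  have hD : IsD (fdg (d := d) f g) (dfdg (d := d) f g) := by
    intro U φ hU hφ p hp
    rw [pb_dfdg hU hφ hf hg hp, ← ext_one hU (comp_smooth hφ hf) (comp_smooth hφ hg) hp]
    apply Filter.EventuallyEq.extDeriv_eq
    filter_upwards [hU.mem_nhds hp] with y hy
    exact pb_fdg hU hφ hg hy
  have hS : IsSmooth (fdg (d := d) f g) := by
    intro U φ hU hφ
    refine ContDiffOn.congr ?_ fun p hp => pb_fdg hU hφ hg hp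
    exact (comp_smooth hφ hf).smul
      (smooth_one ((comp_smooth hφ hg).fderiv_of_isOpen hU (by simp)))
  refine ⟨hS, ?_, hD, ?_⟩
  · intro U φ hU hφ
    refine ContDiffOn.congr ?_ fun p hp => pb_hdfdg hU hφ hf hg hp
    exact (comp_smooth hφ hh).smul
      (smooth_wedge ((comp_smooth hφ hf).fderiv_of_isOpen hU (by simp))
        ((comp_smooth hφ hg).fderiv_of_isOpen hU (by simp)))
  · intro U φ hU hφ p hp
    have h1 : pb φ (dfdg (d := d) f g) =ᶠ[𝓝 p] extDeriv (pb φ (fdg (d := d) f g)) := by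
      filter_upwards [hU.mem_nhds hp] with y hy
      exact (hD U φ hU hφ y hy).symm
    rw [h1.extDeriv_eq, extDeriv_extDeriv_apply (r := ∞)
      ((hS U φ hU hφ).contDiffAt (hU.mem_nhds hp)) two_le]
    rfl

end Pool.Agent.Y484.SY
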